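import Pool.Agent.Lib.MP_3c1e96_ag.Final

/-!
# A mildly singular point of `Hilb_13(𝔸³)` which is not a cone over `Gr(2,6)`

The ideal `I = (x³, y³, x²z, y²z, xz², yz², z³ - xyz, x²y²)` of `k[x,y,z]` is a point of the
smoothable component of `Hilb_13(𝔸³)` with tangent space of dimension `45 = 3 * 13 + 6`, and it is
not smoothly equivalent to the cone point of the affine cone over `Gr(2,6)`.
-/

namespace Pool.Agent.Results.MP_3c1e96_ag.HuDisproof

universe u

open MvPolynomial Pool.Agent.Lib.MP_3c1e96_ag

/-- Negated form of Q1, with `d = 13`: there are an affine open subscheme `Spec A` of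
`Hilb_13(𝔸³)`, with universal family `𝒥`, and a `k`-point `p` of it, corresponding to the ideal
`(x³, y³, x²z, y²z, xz², yz², z³ - xyz, x²y²)`, such that `p` lies on the smoothable component,
has tangent space of dimension `3 * 13 + 6`, and is not smoothly equivalent to the cone point of
the affine cone over `Gr(2,6)`. -/
theorem result (k : Type u) [Field k] [IsAlgClosed k] :
    ∃ (A : Type u) (_ : CommRing A) (_ : Algebra k A) (𝒥 : Ideal (MvPolynomial (Fin 3) A))
      (p : A →ₐ[k] k),
      IsAffineOpen k 13 A 𝒥 ∧
      baseChange (p : A →+* k) 𝒥 = gammaIdeal k ∧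
      closedPoint p ∈ smoothableComponent k 𝒥 ∧
      tangentDim p = 3 * 13 + 6 ∧
      ¬ SmoothlyEquivalentAt p (conePoint k) :=
  counterexample k

end Pool.Agent.Results.MP_3c1e96_ag.HuDisproof
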